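import Pool.Agent.helper84.LP.SpecP

/-!
# MP_07c750 (quantum unique ergodicity), PROJECT LP: row OSI (the oscillatory integral)
-/

open MeasureTheory Set

set_option autoImplicit false

namespace Pool.Agent.LP

noncomputable section

theorem OSI_one {X u : ℝ} (hX : |X| ≤ 1 / 16) (hu : u ∈ Icc (-2 : ℝ) 2) : 7 / 8 ≤ 1 - X * u ∧ 1 - X * u ≤ 9 / 8 := by
  have h2 : |X * u| ≤ 1 / 16 * 2 := by
    rw [abs_mul]
    exact mul_le_mul hX (abs_le.2 ⟨hu.1, hu.2⟩) (abs_nonneg _) (by norm_num)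
  have h3 := abs_le.1 h2
  constructor <;> linarith

/-- `1/(1 - X u)` -/
def OSI_w (X u : ℝ) : ℝ := (1 - X * u)⁻¹

theorem OSI_wb {X u : ℝ} (hX : |X| ≤ 1 / 16) (hu : u ∈ Icc (-2 : ℝ) 2) : 8 / 9 ≤ OSI_w X u ∧ OSI_w X u ≤ 8 / 7 := by
  obtain ⟨h1, h2⟩ := OSI_one hX hu
  unfold OSI_w
  constructor
  · rw [show (8 / 9 : ℝ) = (9 / 8)⁻¹ by norm_num]
    exact inv_anti₀ (by linarith) h2
  · rw [show (8 / 7 : ℝ) = (7 / 8)⁻¹ by norm_num]
    exact inv_anti₀ (by norm_num) h1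

theorem OSI_wd {X u : ℝ} (h : 1 - X * u ≠ 0) : HasDerivAt (OSI_w X) (X * OSI_w X u ^ 2) u := by
  have h1 : HasDerivAt (fun v : ℝ => 1 - X * v) (-X) u := by
    have h2 := ((hasDerivAt_id u).const_mul X).const_sub 1
    rw [mul_one] at h2
    exact h2
  have h3 := h1.inv h
  refine h3.congr_deriv ?_
  unfold OSI_w
  field_simp

theorem OSI_wc {X : ℝ} (hX : |X| ≤ 1 / 16) : ContinuousOn (OSI_w X) (Icc (-2 : ℝ) 2) := by
  intro u hu
  have h := OSI_one hX hu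
  exact (OSI_wd (X := X) (u := u) (by linarith)).continuousAt.continuousWithinAt

theorem OSI_md (X u : ℝ) : md X u = OSI_w X u ^ 2 := by
  unfold md OSI_w
  rw [one_div, inv_pow]

theorem OSI_mm {X u : ℝ} (h : 1 - X * u ≠ 0) : HasDerivAt (mm X) (OSI_w X u ^ 2) u := by
  have h1 : mm X = fun v => v * OSI_w X v := by
    funext v
    unfold mm OSI_w
    rw [div_eq_mul_inv]
  rw [h1]
  have h2 := (hasDerivAt_id u).mul (OSI_wd h)
  refine h2.congr_deriv ?_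
  simp only [id]
  unfold OSI_w
  field_simp
  ring

theorem OSI_ee (s : ℝ) : ‖ee s‖ = 1 := by
  unfold ee
  exact Complex.norm_exp_ofReal_mul_I s

theorem OSI_triv {X X' : ℝ} (hX : |X| ≤ 1 / 16) (hX' : |X'| ≤ 1 / 16) (t t' : ℝ) : ‖ip X t X' t'‖ ≤ 7 := by
  unfold ip
  have h1 : ∀ u ∈ Icc (-2 : ℝ) 2, ‖ee (t * mm X u - t' * mm X' u) * ((md X u * md X' u : ℝ) : ℂ)‖ ≤ 7 / 4 := by
    intro u hu
    rw [norm_mul, OSI_ee, one_mul, Complex.norm_real, Real.norm_eq_abs, OSI_md, OSI_md]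
    obtain ⟨a1, a2⟩ := OSI_wb hX hu
    obtain ⟨b1, b2⟩ := OSI_wb hX' hu
    rw [abs_of_nonneg (by positivity)]
    have h3 : OSI_w X u ^ 2 ≤ (8 / 7) ^ 2 := pow_le_pow_left₀ (by linarith) a2 2
    have h4 : OSI_w X' u ^ 2 ≤ (8 / 7) ^ 2 := pow_le_pow_left₀ (by linarith) b2 2
    refine (mul_le_mul h3 h4 (by positivity) (by positivity)).trans ?_
    norm_num
  refine (norm_setIntegral_le_of_norm_le_const (by rw [Real.volume_Icc]; exact ENNReal.ofReal_lt_top) h1).trans ?_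
  rw [Measure.real, Real.volume_Icc, ENNReal.toReal_ofReal (by norm_num)]
  norm_num

theorem OSI_conj (s : ℝ) : (starRingEnd ℂ) (ee s) = ee (-s) := by
  unfold ee
  rw [← Complex.exp_conj]
  congr 1
  simp

theorem OSI_swap (X t X' t' : ℝ) : ‖ip X t X' t'‖ = ‖ip X' t' X t‖ := by
  have h1 : ip X' t' X t = (starRingEnd ℂ) (ip X t X' t') := by
    unfold ip
    rw [← integral_conj]
    refine integral_congr_ae (Filter.Eventually.of_forall fun u => ?_)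
    simp only [map_mul, OSI_conj, Complex.conj_ofReal]
    rw [neg_sub, mul_comm (md X' u) (md X u)]
  rw [h1, Complex.norm_conj]

theorem OSI_neg (X t X' t' : ℝ) : ‖ip X (-t) X' (-t')‖ = ‖ip X t X' t'‖ := by
  have h1 : ip X (-t) X' (-t') = (starRingEnd ℂ) (ip X t X' t') := by
    unfold ip
    rw [← integral_conj]
    refine integral_congr_ae (Filter.Eventually.of_forall fun u => ?_)
    simp only [map_mul, OSI_conj, Complex.conj_ofReal]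
    have h2 : -t * mm X u - -t' * mm X' u = -(t * mm X u - t' * mm X' u) := by ring
    rw [h2]
  rw [h1, Complex.norm_conj]

/-- bounds of products of powers -/
theorem OSI_pw {a b : ℝ} (ha : 8 / 9 ≤ a ∧ a ≤ 8 / 7) (hb : 8 / 9 ≤ b ∧ b ≤ 8 / 7) (i j : ℕ) :
    0 ≤ a ^ i * b ^ j ∧ (8 / 9 : ℝ) ^ (i + j) ≤ a ^ i * b ^ j ∧ a ^ i * b ^ j ≤ (8 / 7 : ℝ) ^ (i + j) := by
  have ha0 : 0 ≤ a := by linarith [ha.1]
  have hb0 : 0 ≤ b := by linarith [hb.1]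
  refine ⟨by positivity, ?_, ?_⟩
  · rw [pow_add]
    exact mul_le_mul (pow_le_pow_left₀ (by norm_num) ha.1 i) (pow_le_pow_left₀ (by norm_num) hb.1 j) (by positivity) (by positivity)
  · rw [pow_add]
    exact mul_le_mul (pow_le_pow_left₀ ha0 ha.2 i) (pow_le_pow_left₀ hb0 hb.2 j) (by positivity) (by positivity)

/-- `|X| ≤ 1/16`, `0 ≤ p ≤ q`: `|X p| ≤ q/16` -/
theorem OSI_xp {X p q : ℝ} (hX : |X| ≤ 1 / 16) (hp : 0 ≤ p) (hq : p ≤ q) : |X * p| ≤ q / 16 := by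
  rw [abs_mul, abs_of_nonneg hp]
  have h1 := mul_le_mul hX hq hp (by norm_num)
  linarith

/-- the product of the two densities -/
theorem OSI_g {X X' u : ℝ} (hX : |X| ≤ 1 / 16) (hX' : |X'| ≤ 1 / 16) (hu : u ∈ Icc (-2 : ℝ) 2) :
    HasDerivAt (fun v => md X v * md X' v) (2 * (X * (OSI_w X u ^ 3 * OSI_w X' u ^ 2)) + 2 * (X' * (OSI_w X u ^ 2 * OSI_w X' u ^ 3))) u ∧
    |md X u * md X' u| ≤ 4 ∧ |2 * (X * (OSI_w X u ^ 3 * OSI_w X' u ^ 2)) + 2 * (X' * (OSI_w X u ^ 2 * OSI_w X' u ^ 3))| ≤ 4 := by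
  have hw := OSI_wb hX hu
  have hw' := OSI_wb hX' hu
  have n1 : 1 - X * u ≠ 0 := by have := OSI_one hX hu; linarith
  have n2 : 1 - X' * u ≠ 0 := by have := OSI_one hX' hu; linarith
  refine ⟨?_, ?_, ?_⟩
  · have h1 : (fun v => md X v * md X' v) = fun v => OSI_w X v ^ 2 * OSI_w X' v ^ 2 := by
      funext v
      rw [OSI_md, OSI_md]
    rw [h1]
    have h2 := ((OSI_wd n1).pow 2).mul ((OSI_wd n2).pow 2)
    refine h2.congr_deriv ?_
    simp only [Pi.pow_apply, Nat.cast_ofNat, Nat.add_one_sub_one, pow_one]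
    ring
  · rw [OSI_md, OSI_md]
    obtain ⟨p1, p2, p3⟩ := OSI_pw hw hw' 2 2
    rw [abs_of_nonneg p1]
    refine p3.trans ?_
    norm_num
  · obtain ⟨p1, p2, p3⟩ := OSI_pw hw hw' 3 2
    obtain ⟨q1, q2, q3⟩ := OSI_pw hw hw' 2 3
    have e1 := OSI_xp hX p1 p3
    have e2 := OSI_xp hX' q1 q3
    refine (abs_add_le _ _).trans ?_
    rw [abs_mul, abs_mul, abs_of_nonneg (show (0 : ℝ) ≤ 2 by norm_num)]
    norm_num at e1 e2 ⊢
    linarith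

theorem OSI_gc {X X' : ℝ} (hX : |X| ≤ 1 / 16) (hX' : |X'| ≤ 1 / 16) :
    ContinuousOn (fun u => 2 * (X * (OSI_w X u ^ 3 * OSI_w X' u ^ 2)) + 2 * (X' * (OSI_w X u ^ 2 * OSI_w X' u ^ 3))) (Icc (-2 : ℝ) 2) := by
  have h1 := OSI_wc hX
  have h2 := OSI_wc hX'
  fun_prop

/-- opposite signs -/
theorem OSI_opp {C : ℝ} (h : ∀ (t A B : ℝ) (Φ k k' g g' : ℝ → ℝ), 0 < t →
  (∀ u ∈ Icc (-2 : ℝ) 2, HasDerivAt Φ (t * (A + B * u) * k u) u ∧ HasDerivAt k (k' u) u ∧ HasDerivAt g (g' u) u ∧ 1 / 4 ≤ k u ∧ k u ≤ 4 ∧ |k' u| ≤ 4 ∧ |g u| ≤ 4 ∧ |g' u| ≤ 4) →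
  ContinuousOn k' (Icc (-2 : ℝ) 2) → ContinuousOn g' (Icc (-2 : ℝ) 2) →
    (∀ x y L : ℝ, -2 ≤ x → x ≤ y → y ≤ 2 → 0 < L → (∀ u ∈ Icc x y, L ≤ |A + B * u|) → ‖∫ u in Icc x y, ee (Φ u) * (g u : ℂ)‖ ≤ C / (t * L)) ∧
    (B ≠ 0 → ‖∫ u in Icc (-2 : ℝ) 2, ee (Φ u) * (g u : ℂ)‖ ≤ C / Real.sqrt (t * |B|)))
    {X X' t r : ℝ} (hX : |X| ≤ 1 / 16) (hX' : |X'| ≤ 1 / 16) (ht : 0 ≤ t) (hr : 0 ≤ r) (hs : 0 < t + r) :
    ‖ip X t X' (-r)‖ ≤ C / (t + r) := by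
  have key := (h (t + r) 1 0 (fun u => t * mm X u - -r * mm X' u) (fun u => (t * OSI_w X u ^ 2 + r * OSI_w X' u ^ 2) / (t + r))
    (fun u => (2 * t * (X * OSI_w X u ^ 3) + 2 * r * (X' * OSI_w X' u ^ 3)) / (t + r)) (fun u => md X u * md X' u)
    (fun u => 2 * (X * (OSI_w X u ^ 3 * OSI_w X' u ^ 2)) + 2 * (X' * (OSI_w X u ^ 2 * OSI_w X' u ^ 3))) hs ?_ ?_ (OSI_gc hX hX')).1
    (-2) 2 1 le_rfl (by norm_num) le_rfl one_pos (fun u _ => by simp)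
  · rw [mul_one] at key
    exact key
  · intro u hu
    have hw := OSI_wb hX hu
    have hw' := OSI_wb hX' hu
    have n1 : 1 - X * u ≠ 0 := by have := OSI_one hX hu; linarith
    have n2 : 1 - X' * u ≠ 0 := by have := OSI_one hX' hu; linarith
    obtain ⟨g1, g2, g3⟩ := OSI_g hX hX' hu
    have a2 := OSI_pw hw hw' 2 0
    have b2 := OSI_pw hw hw' 0 2
    have a3 := OSI_pw hw hw' 3 0
    have b3 := OSI_pw hw hw' 0 3
    simp only [pow_zero, mul_one, one_mul, add_zero, zero_add] at a2 b2 a3 b3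
    refine ⟨?_, ?_, g1, ?_, ?_, ?_, g2, g3⟩
    · have h1 := ((OSI_mm n1).const_mul t).sub ((OSI_mm n2).const_mul (-r))
      refine h1.congr_deriv ?_
      field_simp
      ring
    · have h1 := ((((OSI_wd n1).pow 2).const_mul t).add (((OSI_wd n2).pow 2).const_mul r)).div_const (t + r)
      refine h1.congr_deriv ?_
      simp only [Nat.cast_ofNat, Nat.add_one_sub_one, pow_one]
      congr 1
      ring
    · rw [le_div_iff₀ hs]
      have c1 := mul_le_mul_of_nonneg_left a2.2.1 ht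
      have c2 := mul_le_mul_of_nonneg_left b2.2.1 hr
      norm_num at c1 c2
      linarith
    · rw [div_le_iff₀ hs]
      have c1 := mul_le_mul_of_nonneg_left a2.2.2 ht
      have c2 := mul_le_mul_of_nonneg_left b2.2.2 hr
      norm_num at c1 c2
      linarith
    · rw [abs_div, abs_of_pos hs, div_le_iff₀ hs]
      have e1 := OSI_xp hX a3.1 a3.2.2
      have e2 := OSI_xp hX' b3.1 b3.2.2
      refine (abs_add_le _ _).trans ?_
      rw [abs_mul (2 * t), abs_mul (2 * r), abs_of_nonneg (show 0 ≤ 2 * t by linarith), abs_of_nonneg (show 0 ≤ 2 * r by linarith)]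
      have c1 := mul_le_mul_of_nonneg_left (e1.trans (show (8 / 7 : ℝ) ^ 3 / 16 ≤ 1 by norm_num)) (show 0 ≤ 2 * t by linarith)
      have c2 := mul_le_mul_of_nonneg_left (e2.trans (show (8 / 7 : ℝ) ^ 3 / 16 ≤ 1 by norm_num)) (show 0 ≤ 2 * r by linarith)
      linarith
  · have h1 := OSI_wc hX
    have h2 := OSI_wc hX'
    fun_prop

/-- equal signs: the hypotheses of OSL -/
theorem OSI_eqh {X X' t ρ : ℝ} (hX : |X| ≤ 1 / 16) (hX' : |X'| ≤ 1 / 16) (hρ : 0 ≤ ρ) (hρ1 : ρ ≤ 1) (u : ℝ) (hu : u ∈ Icc (-2 : ℝ) 2) :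
    HasDerivAt (fun u => t * mm X u - t * ρ ^ 2 * mm X' u) (t * ((1 - ρ) + (ρ * X - X') * u) * (OSI_w X u ^ 2 * OSI_w X' u ^ 1 + ρ * (OSI_w X u ^ 1 * OSI_w X' u ^ 2))) u ∧
    HasDerivAt (fun u => OSI_w X u ^ 2 * OSI_w X' u ^ 1 + ρ * (OSI_w X u ^ 1 * OSI_w X' u ^ 2))
      (2 * (X * (OSI_w X u ^ 3 * OSI_w X' u ^ 1)) + X' * (OSI_w X u ^ 2 * OSI_w X' u ^ 2) + ρ * (X * (OSI_w X u ^ 2 * OSI_w X' u ^ 2)) + ρ * (2 * (X' * (OSI_w X u ^ 1 * OSI_w X' u ^ 3)))) u ∧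
    HasDerivAt (fun v => md X v * md X' v) (2 * (X * (OSI_w X u ^ 3 * OSI_w X' u ^ 2)) + 2 * (X' * (OSI_w X u ^ 2 * OSI_w X' u ^ 3))) u ∧
    1 / 4 ≤ OSI_w X u ^ 2 * OSI_w X' u ^ 1 + ρ * (OSI_w X u ^ 1 * OSI_w X' u ^ 2) ∧
    OSI_w X u ^ 2 * OSI_w X' u ^ 1 + ρ * (OSI_w X u ^ 1 * OSI_w X' u ^ 2) ≤ 4 ∧
    |2 * (X * (OSI_w X u ^ 3 * OSI_w X' u ^ 1)) + X' * (OSI_w X u ^ 2 * OSI_w X' u ^ 2) + ρ * (X * (OSI_w X u ^ 2 * OSI_w X' u ^ 2)) + ρ * (2 * (X' * (OSI_w X u ^ 1 * OSI_w X' u ^ 3)))| ≤ 4 ∧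
    |md X u * md X' u| ≤ 4 ∧ |2 * (X * (OSI_w X u ^ 3 * OSI_w X' u ^ 2)) + 2 * (X' * (OSI_w X u ^ 2 * OSI_w X' u ^ 3))| ≤ 4 := by
  have hw := OSI_wb hX hu
  have hw' := OSI_wb hX' hu
  have n1 : 1 - X * u ≠ 0 := by have := OSI_one hX hu; linarith
  have n2 : 1 - X' * u ≠ 0 := by have := OSI_one hX' hu; linarith
  obtain ⟨g1, g2, g3⟩ := OSI_g hX hX' hu
  have a21 := OSI_pw hw hw' 2 1
  have a12 := OSI_pw hw hw' 1 2
  have a31 := OSI_pw hw hw' 3 1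
  have a22 := OSI_pw hw hw' 2 2
  have a13 := OSI_pw hw hw' 1 3
  refine ⟨?_, ?_, g1, ?_, ?_, ?_, g2, g3⟩
  · have h1 := ((OSI_mm n1).const_mul t).sub ((OSI_mm n2).const_mul (t * ρ ^ 2))
    refine h1.congr_deriv ?_
    have i1 : (1 - X * u) * OSI_w X u = 1 := mul_inv_cancel₀ n1
    have i2 : (1 - X' * u) * OSI_w X' u = 1 := mul_inv_cancel₀ n2
    linear_combination (-t * OSI_w X u ^ 2) * i2 + (t * ρ * OSI_w X u * OSI_w X' u) * i1 - (t * ρ * OSI_w X u * OSI_w X' u) * i2 + (t * ρ ^ 2 * OSI_w X' u ^ 2) * i1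
  · have h1 := (((OSI_wd n1).pow 2).mul ((OSI_wd n2).pow 1)).add ((((OSI_wd n1).pow 1).mul ((OSI_wd n2).pow 2)).const_mul ρ)
    refine h1.congr_deriv ?_
    simp only [Pi.pow_apply, Nat.cast_ofNat, Nat.cast_one, Nat.add_one_sub_one, pow_one, pow_zero, Nat.sub_self]
    ring
  · have c1 := mul_nonneg hρ a12.1
    have c2 := a21.2.1
    norm_num at c1 c2 ⊢
    linarith
  · have c1 := mul_le_mul hρ1 a12.2.2 a12.1 (by norm_num)
    have c2 := a21.2.2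
    norm_num at c1 c2 ⊢
    linarith
  · have e1 := OSI_xp hX a31.1 a31.2.2
    have e2 := OSI_xp hX' a22.1 a22.2.2
    have e3 := OSI_xp hX a22.1 a22.2.2
    have e4 := OSI_xp hX' a13.1 a13.2.2
    refine (abs_add_le _ _).trans ?_
    refine (add_le_add_left ((abs_add_le _ _).trans (add_le_add_left (abs_add_le _ _) _)) _).trans ?_
    rw [abs_mul 2, abs_mul ρ, abs_mul ρ, abs_mul 2, abs_of_nonneg hρ, abs_of_nonneg (show (0 : ℝ) ≤ 2 by norm_num)]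
    have c3 := mul_le_mul hρ1 e3 (abs_nonneg _) zero_le_one
    have c4 := mul_le_mul hρ1 (mul_le_mul_of_nonneg_left e4 (show (0 : ℝ) ≤ 2 by norm_num)) (by positivity) zero_le_one
    norm_num at e1 e2 c3 c4 ⊢
    linarith

theorem OSI_kc {X X' ρ : ℝ} (hX : |X| ≤ 1 / 16) (hX' : |X'| ≤ 1 / 16) :
    ContinuousOn (fun u => 2 * (X * (OSI_w X u ^ 3 * OSI_w X' u ^ 1)) + X' * (OSI_w X u ^ 2 * OSI_w X' u ^ 2) + ρ * (X * (OSI_w X u ^ 2 * OSI_w X' u ^ 2)) + ρ * (2 * (X' * (OSI_w X u ^ 1 * OSI_w X' u ^ 3)))) (Icc (-2 : ℝ) 2) := by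
  have h1 := OSI_wc hX
  have h2 := OSI_wc hX'
  fun_prop

/-- both claims for fixed `X, X', t, t'` -/
def OSI_P (C X t X' t' : ℝ) : Prop := (∀ T : ℝ, 0 ≤ T → T ≤ |t| → T ≤ |t'| → ‖ip X t X' t'‖ ≤ C / Real.sqrt (1 + T * |X - X'|)) ∧
  (8 * |X - X'| * max |t| |t'| ≤ |t - t'| → |t - t'| * ‖ip X t X' t'‖ ≤ C)

theorem OSI_Pswap {C X t X' t' : ℝ} (h : OSI_P C X t X' t') : OSI_P C X' t' X t := by
  refine ⟨?_, ?_⟩
  · intro T h0 h1 h2
    rw [OSI_swap, abs_sub_comm X' X]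
    exact h.1 T h0 h2 h1
  · rw [OSI_swap, abs_sub_comm X' X, abs_sub_comm t' t, max_comm]
    exact h.2

theorem OSI_Pneg {C X t X' t' : ℝ} (h : OSI_P C X (-t) X' (-t')) : OSI_P C X t X' t' := by
  have h1 : |-t - -t'| = |t - t'| := by rw [← abs_neg]; congr 1; ring
  unfold OSI_P at h
  rw [OSI_neg, h1, abs_neg, abs_neg] at h
  exact h

/-- from a bound of the square to (a) -/
theorem OSI_sq {a s D : ℝ} (ha : 0 ≤ a) (hs : 0 ≤ s) (hD : 0 ≤ D) (h : a ^ 2 * (1 + s) ≤ D ^ 2) : a ≤ D / Real.sqrt (1 + s) := by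
  have h1 : 0 < Real.sqrt (1 + s) := Real.sqrt_pos.2 (by linarith)
  rw [le_div_iff₀ h1]
  refine le_of_sq_le_sq ?_ hD
  rw [mul_pow, Real.sq_sqrt (by linarith)]
  exact h

theorem OSI_Popp {C : ℝ} (hC : 1 ≤ C) (h : ∀ (t A B : ℝ) (Φ k k' g g' : ℝ → ℝ), 0 < t →
  (∀ u ∈ Icc (-2 : ℝ) 2, HasDerivAt Φ (t * (A + B * u) * k u) u ∧ HasDerivAt k (k' u) u ∧ HasDerivAt g (g' u) u ∧ 1 / 4 ≤ k u ∧ k u ≤ 4 ∧ |k' u| ≤ 4 ∧ |g u| ≤ 4 ∧ |g' u| ≤ 4) →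
  ContinuousOn k' (Icc (-2 : ℝ) 2) → ContinuousOn g' (Icc (-2 : ℝ) 2) →
    (∀ x y L : ℝ, -2 ≤ x → x ≤ y → y ≤ 2 → 0 < L → (∀ u ∈ Icc x y, L ≤ |A + B * u|) → ‖∫ u in Icc x y, ee (Φ u) * (g u : ℂ)‖ ≤ C / (t * L)) ∧
    (B ≠ 0 → ‖∫ u in Icc (-2 : ℝ) 2, ee (Φ u) * (g u : ℂ)‖ ≤ C / Real.sqrt (t * |B|)))
    {X X' t r : ℝ} (hX : |X| ≤ 1 / 16) (hX' : |X'| ≤ 1 / 16) (ht : 0 ≤ t) (hr : 0 ≤ r) : OSI_P (7 + 6 * C) X t X' (-r) := by
  have htr := OSI_triv hX hX' t (-r)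
  have hΔ : |X - X'| ≤ 1 / 8 := by
    refine (abs_sub _ _).trans ?_
    linarith
  have hΔ0 := abs_nonneg (X - X')
  have hn := norm_nonneg (ip X t X' (-r))
  rcases (add_nonneg ht hr).eq_or_lt with h0 | h0
  · have e1 : t = 0 := by linarith
    have e2 : r = 0 := by linarith
    subst e1; subst e2
    refine ⟨?_, ?_⟩
    · intro T hT hT1 _
      rw [abs_zero] at hT1
      have hT0 : T = 0 := le_antisymm hT1 hT
      rw [hT0, zero_mul, add_zero, Real.sqrt_one, div_one]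
      linarith
    · intro _
      rw [neg_zero, sub_zero, abs_zero, zero_mul]
      linarith
  · have hm := OSI_opp h hX hX' ht hr h0
    rw [le_div_iff₀ h0] at hm
    refine ⟨?_, ?_⟩
    · intro T hT hT1 _
      rw [abs_of_nonneg ht] at hT1
      refine OSI_sq hn (mul_nonneg hT hΔ0) (by linarith) ?_
      have h1 : T * |X - X'| ≤ t + r := by nlinarith
      have h2 : ‖ip X t X' (-r)‖ ^ 2 * (1 + T * |X - X'|) ≤ ‖ip X t X' (-r)‖ ^ 2 * (1 + (t + r)) :=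
        mul_le_mul_of_nonneg_left (by linarith) (by positivity)
      have h3 : ‖ip X t X' (-r)‖ * (‖ip X t X' (-r)‖ * (t + r)) ≤ 7 * C := mul_le_mul htr hm (by positivity) (by norm_num)
      have h4 : ‖ip X t X' (-r)‖ ^ 2 ≤ 7 ^ 2 := pow_le_pow_left₀ hn htr 2
      nlinarith
    · intro _
      rw [sub_neg_eq_add, abs_of_pos h0]
      linarith

theorem OSI_Peq {C : ℝ} (hC : 1 ≤ C) (h : ∀ (t A B : ℝ) (Φ k k' g g' : ℝ → ℝ), 0 < t →
  (∀ u ∈ Icc (-2 : ℝ) 2, HasDerivAt Φ (t * (A + B * u) * k u) u ∧ HasDerivAt k (k' u) u ∧ HasDerivAt g (g' u) u ∧ 1 / 4 ≤ k u ∧ k u ≤ 4 ∧ |k' u| ≤ 4 ∧ |g u| ≤ 4 ∧ |g' u| ≤ 4) →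
  ContinuousOn k' (Icc (-2 : ℝ) 2) → ContinuousOn g' (Icc (-2 : ℝ) 2) →
    (∀ x y L : ℝ, -2 ≤ x → x ≤ y → y ≤ 2 → 0 < L → (∀ u ∈ Icc x y, L ≤ |A + B * u|) → ‖∫ u in Icc x y, ee (Φ u) * (g u : ℂ)‖ ≤ C / (t * L)) ∧
    (B ≠ 0 → ‖∫ u in Icc (-2 : ℝ) 2, ee (Φ u) * (g u : ℂ)‖ ≤ C / Real.sqrt (t * |B|)))
    {X X' t t' : ℝ} (hX : |X| ≤ 1 / 16) (hX' : |X'| ≤ 1 / 16) (ht' : 0 < t') (htt : t' ≤ t) : OSI_P (7 + 6 * C) X t X' t' := by
  have ht : 0 < t := by linarith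
  have htr := OSI_triv hX hX' t t'
  have hn := norm_nonneg (ip X t X' t')
  obtain ⟨Δ, hΔ⟩ : ∃ Δ, Δ = |X - X'| := ⟨_, rfl⟩
  have hΔ0 : 0 ≤ Δ := by rw [hΔ]; exact abs_nonneg _
  obtain ⟨ρ, hρ⟩ : ∃ ρ, ρ = Real.sqrt (t' / t) := ⟨_, rfl⟩
  have hρ0 : 0 ≤ ρ := by rw [hρ]; exact Real.sqrt_nonneg _
  have hρ2 : t * ρ ^ 2 = t' := by
    rw [hρ, Real.sq_sqrt (by positivity)]
    field_simp
  have hρ1 : ρ ≤ 1 := by
    rw [hρ]
    exact (Real.sqrt_le_sqrt ((div_le_one ht).2 htt)).trans_eq Real.sqrt_one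
  obtain ⟨A, hA⟩ : ∃ A, A = 1 - ρ := ⟨_, rfl⟩
  have hA0 : 0 ≤ A := by linarith
  -- `t A` and `t - t'`
  have hAt : t - t' ≤ 2 * (t * A) := by
    rw [← hρ2, hA]
    nlinarith [mul_nonneg ht.le (mul_nonneg (show 0 ≤ 1 - ρ by linarith) (show 0 ≤ 1 - ρ by linarith))]
  have hB1 : |ρ * X - X'| ≤ Δ + A / 16 := by
    have e : ρ * X - X' = (X - X') - A * X := by rw [hA]; ring
    rw [e]
    refine (abs_sub _ _).trans ?_
    rw [← hΔ, abs_mul, abs_of_nonneg hA0]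
    have := mul_le_mul_of_nonneg_left hX hA0
    linarith
  have hB2 : Δ - A / 16 ≤ |ρ * X - X'| := by
    have e : X - X' = (ρ * X - X') + A * X := by rw [hA]; ring
    have h1 : Δ ≤ |ρ * X - X'| + |A * X| := by
      rw [hΔ, e]
      exact abs_add_le _ _
    rw [abs_mul, abs_of_nonneg hA0] at h1
    have := mul_le_mul_of_nonneg_left hX hA0
    linarith
  have hM := h t (1 - ρ) (ρ * X - X') _ _ _ _ _ ht (fun u hu => OSI_eqh (t := t) hX hX' hρ0 hρ1 u hu) (OSI_kc hX hX') (OSI_gc hX hX')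
  simp only [hρ2] at hM
  rw [← hA] at hM
  -- the nonstationary case
  have hns : 0 < A → 4 * Δ ≤ A → ‖ip X t X' t'‖ * (t * A) ≤ 8 / 3 * C := by
    intro hA1 hA2
    have h1 := hM.1 (-2) 2 (3 / 8 * A) le_rfl (by norm_num) le_rfl (by positivity) (by
      intro u hu
      have h2 : |(ρ * X - X') * u| ≤ (Δ + A / 16) * 2 := by
        rw [abs_mul]
        exact mul_le_mul hB1 (abs_le.2 ⟨hu.1, hu.2⟩) (abs_nonneg _) (by positivity)
      have h3 := abs_le.1 h2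
      refine le_trans ?_ (le_abs_self _)
      linarith)
    have h2 : ‖ip X t X' t'‖ ≤ C / (t * (3 / 8 * A)) := h1
    rw [le_div_iff₀ (by positivity)] at h2
    linarith
  rw [OSI_P, ← hΔ, abs_of_pos ht, abs_of_pos ht', max_eq_left htt, abs_of_nonneg (show 0 ≤ t - t' by linarith)]
  refine ⟨?_, ?_⟩
  · intro T hT hT1 _
    have hTΔ : T * Δ ≤ t * Δ := mul_le_mul_of_nonneg_right hT1 hΔ0
    have h4 : ‖ip X t X' t'‖ ^ 2 ≤ 7 ^ 2 := pow_le_pow_left₀ hn htr 2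
    have h5 : ‖ip X t X' t'‖ ^ 2 * (T * Δ) ≤ ‖ip X t X' t'‖ ^ 2 * (t * Δ) := mul_le_mul_of_nonneg_left hTΔ (by positivity)
    refine OSI_sq hn (mul_nonneg hT hΔ0) (by linarith) ?_
    rcases le_or_gt (4 * Δ) A with h6 | h6
    · rcases hA0.eq_or_lt with h7 | h7
      · have h8 : Δ = 0 := by linarith
        rw [h8, mul_zero, add_zero, mul_one]
        nlinarith
      · have h8 := hns h7 h6
        have h9 : ‖ip X t X' t'‖ * (t * Δ) ≤ ‖ip X t X' t'‖ * (t * A) :=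
          mul_le_mul_of_nonneg_left (mul_le_mul_of_nonneg_left (by linarith) ht.le) hn
        have h10 : ‖ip X t X' t'‖ * (‖ip X t X' t'‖ * (t * Δ)) ≤ 7 * (8 / 3 * C) :=
          mul_le_mul htr (h9.trans h8) (by positivity) (by norm_num)
        nlinarith
    · have hΔ1 : 0 < Δ := by linarith
      have h7 : 3 / 4 * Δ ≤ |ρ * X - X'| := by linarith
      have h8 : ρ * X - X' ≠ 0 := by
        intro h9
        rw [h9, abs_zero] at h7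
        linarith
      have h9 : ‖ip X t X' t'‖ ≤ C / Real.sqrt (t * |ρ * X - X'|) := hM.2 h8
      have h10 : 0 < t * |ρ * X - X'| := mul_pos ht (abs_pos.2 h8)
      rw [le_div_iff₀ (Real.sqrt_pos.2 h10)] at h9
      have h11 := pow_le_pow_left₀ (by positivity) h9 2
      rw [mul_pow, Real.sq_sqrt h10.le] at h11
      have h12 : ‖ip X t X' t'‖ ^ 2 * (t * (3 / 4 * Δ)) ≤ C ^ 2 :=
        (mul_le_mul_of_nonneg_left (mul_le_mul_of_nonneg_left h7 ht.le) (by positivity)).trans h11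
      nlinarith
  · intro h1
    rcases htt.eq_or_lt with h2 | h2
    · rw [h2, sub_self, zero_mul]
      linarith
    · have h3 : 4 * Δ ≤ A := by
        have h4 : 8 * Δ * t ≤ 2 * (t * A) := h1.trans hAt
        have h5 : t * (4 * Δ) ≤ t * A := by linarith
        exact le_of_mul_le_mul_left h5 ht
      have h4 : 0 < A := by
        have : 0 < t * A := by linarith
        exact (pos_iff_pos_of_mul_pos this).1 ht
      have h5 := hns h4 h3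
      have h6 := mul_le_mul_of_nonneg_left hAt hn
      linarith

/-- **Row OSI** -/
theorem OSI_proof (hOSL : OSL_stmt) : OSI_stmt := by
  obtain ⟨C, hC, h⟩ := hOSL 4 (by norm_num)
  refine ⟨7 + 6 * C, by linarith, ?_⟩
  have hopp : ∀ X X' t r : ℝ, |X| ≤ 1 / 16 → |X'| ≤ 1 / 16 → 0 ≤ t → 0 ≤ r → OSI_P (7 + 6 * C) X t X' (-r) :=
    fun X X' t r hX hX' ht hr => OSI_Popp hC h hX hX' ht hr
  have hpos : ∀ X X' t t' : ℝ, |X| ≤ 1 / 16 → |X'| ≤ 1 / 16 → 0 < t → 0 < t' → OSI_P (7 + 6 * C) X t X' t' := by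
    intro X X' t t' hX hX' ht ht'
    rcases le_total t' t with h1 | h1
    · exact OSI_Peq hC h hX hX' ht' h1
    · exact OSI_Pswap (OSI_Peq hC h hX' hX ht h1)
  intro X X' t t' hX hX'
  suffices hs : OSI_P (7 + 6 * C) X t X' t' from hs
  rcases le_or_gt t 0 with h1 | h1
  · refine OSI_Pneg ?_
    rcases le_or_gt 0 t' with h2 | h2
    · exact hopp X X' (-t) t' hX hX' (by linarith) h2
    · rcases h1.eq_or_lt with h3 | h3
      · rw [h3]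
        have h4 := hopp X' X (-t') 0 hX' hX (by linarith) le_rfl
        rw [neg_zero] at h4 ⊢
        exact OSI_Pswap h4
      · exact hpos X X' (-t) (-t') hX hX' (by linarith) (by linarith)
  · rcases le_or_gt t' 0 with h2 | h2
    · have h3 := hopp X X' t (-t') hX hX' h1.le (by linarith)
      rw [neg_neg] at h3
      exact h3
    · exact hpos X X' t t' hX hX' h1 h2

end

end Pool.Agent.LP
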